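import Mathlib
set_option autoImplicit false
namespace Pool.Agent.Helper339.MSSib

/-- the statement of the Murty-Simon conjecture, word for word S07895 -/
def MSStatement : Prop :=
    ∀ (V : Type) [Fintype V] (G : SimpleGraph V),
      G.ediam = 2 →
      (∀ e ∈ G.edgeSet, 2 < (G.deleteEdges {e}).ediam) →
      G.edgeSet.ncard ≤ Fintype.card V ^ 2 / 4 ∧
        (G.edgeSet.ncard = Fintype.card V ^ 2 / 4 ↔
          Nonempty (G ≃g completeBipartiteGraph (Fin (Fintype.card V / 2))
            (Fin (Fintype.card V - Fintype.card V / 2))))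

/-- no total dominating set of size at most 3 in the complement of a complete bipartite graph -/
lemma not_bip {V : Type} (H : SimpleGraph V) {A B : Type}
    (h3 : ∃ S : Finset V, S.card ≤ 3 ∧ ∀ w : V, ∃ x ∈ S, H.Adj w x)
    (hA : Nonempty A) (hB : Nonempty B)
    (φ : Hᶜ ≃g completeBipartiteGraph A B) : False := by
  classical
  obtain ⟨S, hS, hdom⟩ := h3
  -- adjacency in H forces same side
  have hside : ∀ x y : V, H.Adj x y → ((φ x).isLeft = (φ y).isLeft) := by
    intro x y hxy
    by_contra hne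
    have hadj : (completeBipartiteGraph A B).Adj (φ x) (φ y) := by
      rw [completeBipartiteGraph_adj]
      rcases hx : φ x with a | b <;> rcases hy : φ y with a' | b' <;> simp_all
    have := (φ.map_rel_iff).1 hadj
    rw [SimpleGraph.compl_adj] at this
    exact this.2 hxy
  -- each side contains at least two elements of S
  have two : ∀ (c : Bool), (∃ w : V, (φ w).isLeft = c) → 2 ≤ (S.filter (fun x => (φ x).isLeft = c)).card := by
    intro c ⟨w, hw⟩
    obtain ⟨x, hx, hwx⟩ := hdom w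
    obtain ⟨y, hy, hxy⟩ := hdom x
    have hxc : (φ x).isLeft = c := by rw [← hside w x hwx]; exact hw
    have hyc : (φ y).isLeft = c := by rw [← hside x y hxy]; exact hxc
    have hne : x ≠ y := hxy.ne
    have : ({x, y} : Finset V) ⊆ S.filter (fun x => (φ x).isLeft = c) := by
      intro u hu
      simp only [Finset.mem_insert, Finset.mem_singleton] at hu
      rcases hu with rfl | rfl
      · exact Finset.mem_filter.2 ⟨hx, hxc⟩
      · exact Finset.mem_filter.2 ⟨hy, hyc⟩
    calc 2 = ({x, y} : Finset V).card := (Finset.card_pair hne).symm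
      _ ≤ _ := Finset.card_le_card this
  have h1 : 2 ≤ (S.filter (fun x => (φ x).isLeft = true)).card := by
    apply two
    obtain ⟨a⟩ := hA
    exact ⟨φ.symm (Sum.inl a), by simp⟩
  have h2 : 2 ≤ (S.filter (fun x => (φ x).isLeft = false)).card := by
    apply two
    obtain ⟨b⟩ := hB
    exact ⟨φ.symm (Sum.inr b), by simp⟩
  have h3 : (S.filter (fun x => (φ x).isLeft = true)).card + (S.filter (fun x => (φ x).isLeft = false)).card = S.card := by
    have := Finset.card_filter_add_card_filter_not (s := S) (fun x => (φ x).isLeft = true)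
    rw [← this]
    congr 2
    ext x
    simp
  omega

theorem core (ms : MSStatement) (V : Type) [Fintype V] (H : SimpleGraph V)
    (h3 : ∃ S : Finset V, S.card ≤ 3 ∧ ∀ w : V, ∃ x ∈ S, H.Adj w x)
    (h2 : ¬ ∃ S : Finset V, S.card ≤ 2 ∧ ∀ w : V, ∃ x ∈ S, H.Adj w x)
    (hc : ∀ u v : V, u ≠ v → ¬ H.Adj u v →
        ∃ S : Finset V, S.card ≤ 2 ∧ ∀ w : V, ∃ x ∈ S,
          (H.Adj w x ∨ (w = u ∧ x = v) ∨ (w = v ∧ x = u))) :
    Hᶜ.edgeSet.ncard < Fintype.card V ^ 2 / 4 ∧ 0 < H.edgeSet.ncard := by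
  classical
  -- no pair dominates
  have hpair : ∀ x y : V, ∃ w : V, ¬ H.Adj w x ∧ ¬ H.Adj w y := by
    intro x y
    by_contra hcon
    push Not at hcon
    apply h2
    refine ⟨{x, y}, Finset.card_le_two, ?_⟩
    intro w
    by_cases hw : H.Adj w x
    · exact ⟨x, by simp, hw⟩
    · exact ⟨y, by simp, hcon w hw⟩
  have hne : Nonempty V := by
    by_contra hemp
    rw [not_nonempty_iff] at hemp
    exact h2 ⟨∅, by simp, fun w => (hemp.false w).elim⟩
  obtain ⟨v0⟩ := hne
  obtain ⟨x0, y0, hxy0⟩ : ∃ x y : V, H.Adj x y := by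
    obtain ⟨S, _, hS⟩ := h3
    obtain ⟨x, _, hx⟩ := hS v0
    exact ⟨v0, x, hx⟩
  have hpos : 0 < H.edgeSet.ncard := by
    rw [Set.ncard_pos (Set.toFinite _)]
    exact ⟨s(x0, y0), hxy0⟩
  refine ⟨?_, hpos⟩
  have hle : Hᶜ.ediam ≤ 2 := by
    apply SimpleGraph.ediam_le_of_edist_le
    intro x y
    by_contra hcon
    rw [not_le, SimpleGraph.two_lt_edist_iff] at hcon
    obtain ⟨hxy, hnadj, hcn⟩ := hcon
    obtain ⟨w, hwx, hwy⟩ := hpair x y
    rw [SimpleGraph.compl_adj] at hnadj
    have hH : H.Adj x y := by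
      by_contra h
      exact hnadj ⟨hxy, h⟩
    have hwx' : w ≠ x := by
      rintro rfl; exact hwy hH
    have hwy' : w ≠ y := by
      rintro rfl; exact hwx hH.symm
    have : w ∈ Hᶜ.commonNeighbors x y := by
      rw [SimpleGraph.mem_commonNeighbors]
      rw [SimpleGraph.compl_adj, SimpleGraph.compl_adj]
      exact ⟨⟨hwx'.symm, fun h => hwx h.symm⟩, ⟨hwy'.symm, fun h => hwy h.symm⟩⟩
    rw [hcn] at this
    exact this
  have hge : 2 ≤ Hᶜ.ediam := by
    by_contra hcon
    rw [not_le] at hcon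
    have h1 : Hᶜ.edist x0 y0 ≤ 1 := by
      have : Hᶜ.edist x0 y0 < 2 := lt_of_le_of_lt SimpleGraph.edist_le_ediam hcon
      exact Order.le_of_lt_add_one (by simpa [one_add_one_eq_two] using this)
    rw [SimpleGraph.edist_le_one_iff_adj_or_eq] at h1
    rcases h1 with h | h
    · rw [SimpleGraph.compl_adj] at h
      exact h.2 hxy0
    · exact hxy0.ne h
  have hdiam : Hᶜ.ediam = 2 := le_antisymm hle hge
  have hcrit : ∀ e ∈ Hᶜ.edgeSet, 2 < (Hᶜ.deleteEdges {e}).ediam := by
    intro e he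
    induction e using Sym2.ind with
    | _ u v =>
      rw [SimpleGraph.mem_edgeSet, SimpleGraph.compl_adj] at he
      obtain ⟨S, hS, hdom⟩ := hc u v he.1 he.2
      obtain ⟨x, hx, _⟩ := hdom v0
      obtain ⟨y, hy, hxy⟩ := hdom x
      have hxyne : x ≠ y := by
        rintro rfl
        rcases hxy with h | ⟨h1, h2⟩ | ⟨h1, h2⟩
        · exact h.ne rfl
        · exact he.1 (h1.symm.trans h2)
        · exact he.1 (h2.symm.trans h1)
      have hSeq : S = {x, y} := by
        symm
        apply Finset.eq_of_subset_of_card_le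
        · intro a ha
          simp only [Finset.mem_insert, Finset.mem_singleton] at ha
          rcases ha with rfl | rfl <;> assumption
        · rw [Finset.card_pair hxyne]; exact hS
      have hlt : 2 < (Hᶜ.deleteEdges {s(u, v)}).edist x y := by
        rw [SimpleGraph.two_lt_edist_iff]
        refine ⟨hxyne, ?_, ?_⟩
        · intro h
          rw [SimpleGraph.deleteEdges_adj] at h
          obtain ⟨h1, h2⟩ := h
          rw [SimpleGraph.compl_adj] at h1
          rcases hxy with h' | ⟨rfl, rfl⟩ | ⟨rfl, rfl⟩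
          · exact h1.2 h'
          · exact h2 (by simp)
          · exact h2 (by simp [Sym2.eq_swap])
        · rw [Set.eq_empty_iff_forall_notMem]
          intro w hw
          rw [SimpleGraph.mem_commonNeighbors] at hw
          obtain ⟨hwx, hwy⟩ := hw
          rw [SimpleGraph.deleteEdges_adj, SimpleGraph.compl_adj] at hwx hwy
          obtain ⟨s, hs, hws⟩ := hdom w
          rw [hSeq] at hs
          simp only [Finset.mem_insert, Finset.mem_singleton] at hs
          rcases hs with rfl | rfl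
          · rcases hws with h' | ⟨rfl, rfl⟩ | ⟨rfl, rfl⟩
            · exact hwx.1.2 h'.symm
            · exact hwx.2 (by simp [Sym2.eq_swap])
            · exact hwx.2 (by simp)
          · rcases hws with h' | ⟨rfl, rfl⟩ | ⟨rfl, rfl⟩
            · exact hwy.1.2 h'.symm
            · exact hwy.2 (by simp [Sym2.eq_swap])
            · exact hwy.2 (by simp)
      exact lt_of_lt_of_le hlt SimpleGraph.edist_le_ediam
  obtain ⟨hbound, hiff⟩ := ms V Hᶜ hdiam hcrit
  rcases lt_or_eq_of_le hbound with h | h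
  · exact h
  · exfalso
    obtain ⟨φ⟩ := hiff.1 h
    have hcard : 2 ≤ Fintype.card V := by
      have : Nontrivial V := ⟨x0, y0, hxy0.ne⟩
      exact Fintype.one_lt_card
    refine not_bip H h3 ?_ ?_ φ
    · exact ⟨⟨0, by omega⟩⟩
    · exact ⟨⟨0, by omega⟩⟩

lemma card_add (V : Type) [Fintype V] (H : SimpleGraph V) :
    H.edgeSet.ncard + Hᶜ.edgeSet.ncard = (Fintype.card V).choose 2 := by
  classical
  have h1 : H.edgeSet.ncard = H.edgeFinset.card := by
    rw [← SimpleGraph.coe_edgeFinset, Set.ncard_coe_finset]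
  have h2 : Hᶜ.edgeSet.ncard = Hᶜ.edgeFinset.card := by
    rw [← SimpleGraph.coe_edgeFinset, Set.ncard_coe_finset]
  rw [h1, h2, ← SimpleGraph.card_edgeFinset_top_eq_card_choose_two (V := V)]
  rw [← Finset.card_union_of_disjoint]
  · congr 1
    ext e
    induction e using Sym2.ind with
    | _ u v =>
      simp only [Finset.mem_union, SimpleGraph.mem_edgeFinset, SimpleGraph.mem_edgeSet, SimpleGraph.compl_adj, SimpleGraph.top_adj]
      constructor
      · rintro (h | h)
        · exact h.ne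
        · exact h.1
      · intro h
        by_cases hh : H.Adj u v
        · exact Or.inl hh
        · exact Or.inr ⟨h, hh⟩
  · rw [Finset.disjoint_left]
    intro e
    induction e using Sym2.ind with
    | _ u v =>
      simp only [SimpleGraph.mem_edgeFinset, SimpleGraph.mem_edgeSet, SimpleGraph.compl_adj]
      rintro h ⟨_, h'⟩
      exact h' h

theorem sib1 (ms : MSStatement) :
    ∀ (V : Type) [Fintype V] [DecidableEq V] (G : SimpleGraph V) [DecidableRel G.Adj],
      (∃ S : Finset V, S.card = 3 ∧ ∀ x : V, ∃ y ∈ S, G.Adj x y) →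
      (∀ S : Finset V, S.card ≤ 2 → ¬ ∀ x : V, ∃ y ∈ S, G.Adj x y) →
      (∀ u v : V, u ≠ v → ¬ G.Adj u v →
        ∃ S : Finset V, S.card ≤ 2 ∧
          ∀ x : V, ∃ y ∈ S, G.Adj x y ∨ (x = u ∧ y = v) ∨ (x = v ∧ y = u)) →
      (Fintype.card V).choose 2 - (Fintype.card V) ^ 2 / 4 < G.edgeFinset.card := by
  intro V _ _ G _ h3 h2 hc
  obtain ⟨h, hpos⟩ := core ms V G (by obtain ⟨S, hS, h⟩ := h3; exact ⟨S, hS.le, h⟩)
    (by rintro ⟨S, hS, h⟩; exact h2 S hS h) hc
  have hadd := card_add V G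
  have h1 : G.edgeSet.ncard = G.edgeFinset.card := by
    rw [← SimpleGraph.coe_edgeFinset, Set.ncard_coe_finset]
  omega

theorem sib2 (ms : MSStatement) :
    ∀ (V : Type) [Fintype V] (G : SimpleGraph V),
      (∃ u v : V, u ≠ v ∧ ¬ G.Adj u v) →
      (¬ ∃ S : Finset V, S.card ≤ 2 ∧ ∀ w : V, ∃ x ∈ S, G.Adj w x) →
      (∃ S : Finset V, S.card ≤ 3 ∧ ∀ w : V, ∃ x ∈ S, G.Adj w x) →
      (∀ u v : V, u ≠ v → ¬ G.Adj u v →
        ∃ S : Finset V, S.card ≤ 2 ∧ ∀ w : V, ∃ x ∈ S,
          (G.Adj w x ∨ (w = u ∧ x = v) ∨ (w = v ∧ x = u))) →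
      Nat.card G.edgeSet > (Fintype.card V * (Fintype.card V - 2) + 3) / 4 := by
  intro V _ G _ h2 h3 hc
  obtain ⟨h, hpos⟩ := core ms V G h3 h2 hc
  have hadd := card_add V G
  have h1 : Nat.card G.edgeSet = G.edgeSet.ncard := rfl
  rw [h1]
  have hn : ∀ n : ℕ, n.choose 2 - n ^ 2 / 4 = (n * (n - 2) + 3) / 4 := by
    intro n
    rcases Nat.even_or_odd' n with ⟨m, rfl | rfl⟩
    · rcases m with _ | m
      · simp
      · rw [Nat.choose_two_right]
        have e1 : 2 * (m + 1) * (2 * (m + 1) - 1) / 2 = (m + 1) * (2 * m + 1) := by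
          rw [show 2 * (m + 1) - 1 = 2 * m + 1 by omega, show 2 * (m + 1) * (2 * m + 1) = 2 * ((m + 1) * (2 * m + 1)) by ring]
          exact Nat.mul_div_cancel_left _ (by norm_num)
        have e2 : (2 * (m + 1)) ^ 2 / 4 = (m + 1) ^ 2 := by
          rw [show (2 * (m + 1)) ^ 2 = 4 * (m + 1) ^ 2 by ring]
          exact Nat.mul_div_cancel_left _ (by norm_num)
        have e3 : (2 * (m + 1) * (2 * (m + 1) - 2) + 3) / 4 = (m + 1) * m := by
          rw [show 2 * (m + 1) - 2 = 2 * m by omega, show 2 * (m + 1) * (2 * m) + 3 = 3 + 4 * ((m + 1) * m) by ring, Nat.add_mul_div_left _ _ (by norm_num)]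
          norm_num
        rw [e1, e2, e3]
        have : (m + 1) * (2 * m + 1) = (m + 1) ^ 2 + (m + 1) * m := by ring
        omega
    · rcases m with _ | m
      · simp
      · rw [Nat.choose_two_right]
        have e1 : (2 * (m + 1) + 1) * (2 * (m + 1) + 1 - 1) / 2 = (2 * m + 3) * (m + 1) := by
          rw [show 2 * (m + 1) + 1 - 1 = 2 * (m + 1) by omega, show (2 * (m + 1) + 1) * (2 * (m + 1)) = 2 * ((2 * m + 3) * (m + 1)) by ring]
          exact Nat.mul_div_cancel_left _ (by norm_num)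
        have e2 : (2 * (m + 1) + 1) ^ 2 / 4 = (m + 1) ^ 2 + (m + 1) := by
          rw [show (2 * (m + 1) + 1) ^ 2 = 1 + 4 * ((m + 1) ^ 2 + (m + 1)) by ring, Nat.add_mul_div_left _ _ (by norm_num)]
          norm_num
        have e3 : ((2 * (m + 1) + 1) * (2 * (m + 1) + 1 - 2) + 3) / 4 = (m + 1) ^ 2 := by
          rw [show 2 * (m + 1) + 1 - 2 = 2 * m + 1 by omega, show (2 * (m + 1) + 1) * (2 * m + 1) + 3 = 2 + 4 * ((m + 1) ^ 2) by ring, Nat.add_mul_div_left _ _ (by norm_num)]
          norm_num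
        rw [e1, e2, e3]
        have : (2 * m + 3) * (m + 1) = (m + 1) ^ 2 + ((m + 1) ^ 2 + (m + 1)) := by ring
        omega
  have hn' := hn (Fintype.card V)
  rw [← hn']
  omega

end Pool.Agent.Helper339.MSSib
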