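import Mathlib
import Pool.Agent.Helper135.MS6
import Pool.Agent.Helper794.MSSum
import Pool.Agent.Helper65.MSEq3
import Pool.Agent.Helper339.MSSib
set_option autoImplicit false
namespace Pool.Agent.Helper339.MSSib
open Finset Pool.Agent.Helper135.MS

/-- the Murty-Simon conjecture, assembled from the modules of helper135, helper794, helper65 -/
theorem murty_simon : MSStatement := by
  intro V _ G hd hcrit
  classical
  have hc : CritC G := critC_of G hd hcrit
  have h2 : 2 ≤ Fintype.card V := Pool.Agent.Helper65.MS.two_le_card G hd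
  have : Nonempty V := Fintype.card_pos_iff.1 (by omega)
  obtain ⟨v, -, hv⟩ := Finset.exists_max_image (univ : Finset V) (fun x => G.degree x) ⟨Classical.arbitrary V, mem_univ _⟩
  have hmax : ∀ x, G.degree x ≤ G.degree v := fun x => hv x (mem_univ x)
  obtain ⟨K, z, hg, hcount⟩ := exists_good hc v
  have H9 : ∀ y w y' w', (y, w) ∈ K → (y', w') ∈ K → z (y, w) = y' → z (y', w') = y → False := by
    intro y w y' w' h1 h2 h3 h4
    have h5 : s(y, z (y, w)) = s(y', z (y', w')) := by
      rw [h3, h4]; exact Sym2.eq_swap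
    obtain ⟨h6, _⟩ := hg.h9 y w y' w' h1 h2 h5
    have h7 := hg.h5 y w h1
    rw [h3, ← h6] at h7
    exact G.loopless.irrefl _ h7
  have hb := edge_bound_of_half hg hcount (Pool.Agent.Helper794.MS.sum_ineq' hg H9 hmax)
  exact Pool.Agent.Helper65.MS.full_of_bound hc h2 v hmax hb

end Pool.Agent.Helper339.MSSib
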